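import Pool.Agent.RS.StmtsT

/-! Squad RS, row MNP. -/

set_option autoImplicit false

namespace Pool.Agent.RS.H27

open MvPolynomial

theorem mnp : MnpStmt := by
  rintro k B _ _ _ _ _ R p x hp hR ⟨g0, h0⟩
  classical
  have hex : ∃ n : ℕ, ∃ g : Polynomial B, g.natDegree = n ∧ g ≠ 0 ∧ (∀ n, g.coeff n ∈ R) ∧
      g.eval x ∈ p := ⟨_, g0, rfl, h0⟩
  obtain ⟨g, hg, hg0, hgR, hgp⟩ := Nat.find_spec hex
  have hmin : ∀ g' : Polynomial B, g' ≠ 0 → (∀ n, g'.coeff n ∈ R) → g'.eval x ∈ p →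
      g.natDegree ≤ g'.natDegree := by
    intro g' h1 h2 h3
    rw [hg]
    exact Nat.find_min' hex ⟨g', rfl, h1, h2, h3⟩
  have hdeg : g.natDegree ≠ 0 := by
    intro h
    obtain ⟨c, rfl⟩ := Polynomial.natDegree_eq_zero.1 h
    rw [Polynomial.eval_C] at hgp
    have h1 := hgR 0
    rw [Polynomial.coeff_C_zero] at h1
    exact hg0 (by rw [hR c h1 hgp, map_zero])
  refine ⟨g, hgR, hgp, fun hd => ?_⟩
  have hch : CharZero B := charZero_of_injective_algebraMap (algebraMap k B).injective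
  have h1 : g.derivative ≠ 0 := by
    intro h
    exact hdeg (Polynomial.derivative_eq_zero.1 h)
  have h2 : g.derivative.natDegree < g.natDegree := Polynomial.natDegree_derivative_lt hdeg
  have h3 : ∀ n, g.derivative.coeff n ∈ R := by
    intro n
    rw [Polynomial.coeff_derivative]
    refine R.mul_mem (hgR _) ?_
    have h4 : ((n : B) + 1) = ((n + 1 : ℕ) : B) := by
      push_cast
      rfl
    rw [h4]
    exact natCast_mem R _
  exact absurd (hmin _ h1 h3 hd) (not_le.2 h2)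

end Pool.Agent.RS.H27
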